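import Pool.Agent.helper36.YB.Spec
import Pool.Agent.helper39.BP.CHB

/-!
# yb:CHX: cancellation at large height for periodic functions, row by row
-/

set_option autoImplicit false

open Finset
open Pool.Agent.FI Pool.Agent.HK Pool.Agent.BP
open Pool.Agent.CH (nit rgh ll2)
open Pool.Agent.SK (tr0 Th)

noncomputable section

namespace Pool.Agent.YB

/-- periodic modulo `q` -/
def CHX_P (q : ℕ) (χ : ℤ × ℤ → ℂ) : Prop := ∀ z w : ℤ × ℤ, (q : ℤ) ∣ z.1 - w.1 → (q : ℤ) ∣ z.2 - w.2 → χ z = χ w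

/-- the summand -/
def CHX_g (χ : ℤ × ℤ → ℂ) (i : ℕ) (κ τ : ℝ) (z : ℤ × ℤ) : ℂ :=
  if z.1 % 2 = 1 then χ z * (((N8 z).sign : ℂ) ^ i * Complex.exp (κ * yy z * Complex.I)) * nit τ (nn z) else 0

theorem CHX_g_norm (χ : ℤ × ℤ → ℂ) (hχ : ∀ z, ‖χ z‖ ≤ 1) (i : ℕ) (κ τ : ℝ) (z : ℤ × ℤ) : ‖CHX_g χ i κ τ z‖ ≤ 1 := by
  unfold CHX_g
  split_ifs
  · rw [norm_mul, norm_mul, norm_mul, CHB_norm_nit, mul_one]
    have e1 : (κ : ℂ) * (yy z : ℂ) * Complex.I = ((κ * yy z : ℝ) : ℂ) * Complex.I := by push_cast; ring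
    rw [e1, Complex.norm_exp_ofReal_mul_I, mul_one, norm_pow]
    have h1 := hχ z
    have h2 : ‖((N8 z).sign : ℂ)‖ ≤ 1 := by
      rcases lt_trichotomy (N8 z) 0 with h | h | h
      · rw [Int.sign_eq_neg_one_of_neg h]; simp
      · rw [h]; simp
      · rw [Int.sign_eq_one_of_pos h]; simp
    have h3 : ‖((N8 z).sign : ℂ)‖ ^ i ≤ 1 := pow_le_one₀ (norm_nonneg _) h2
    calc ‖χ z‖ * ‖((N8 z).sign : ℂ)‖ ^ i ≤ 1 * 1 := by
          gcongr
      _ = 1 := one_mul 1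
  · rw [norm_zero]
    exact zero_le_one

/-- the rows of the second region -/
theorem CHX_row2 (q : ℕ) (χ : ℤ × ℤ → ℂ) (hχ : ∀ z, ‖χ z‖ ≤ 1) (hq : CHX_P q χ) (i : ℕ) (κ τ : ℝ) (n : ℕ) (hn : 1 ≤ n) :
    ∃ (ψ : ℤ → ℂ) (w : ℝ), (∀ m, ψ (m + (2 * q : ℕ)) = ψ m) ∧ (∀ m, ‖ψ m‖ ≤ 1) ∧
      ∀ m : ℤ, |m| < 2 * (n : ℤ) → CHX_g χ i κ τ (m, n) = ψ m * (nit (κ + τ) |m + w| * nit (τ - κ) |m - w|) ∧ |(m : ℝ)| < w ∧
        (n : ℝ) ≤ 10 * (w - |(m : ℝ)|) ∧ 10 * (w + |(m : ℝ)|) ≤ 49 * n ∧ yy (m, n) = Real.log ((w + m) / (w - m)) := by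
  obtain ⟨hs1, hs2⟩ := CHB_s8
  have hn0 : (1 : ℝ) ≤ n := by exact_mod_cast hn
  refine ⟨fun m => if m % 2 = 1 then χ (m, n) * (-1) ^ i else 0, n * √8, ?_, ?_, ?_⟩
  · intro m
    have h1 : (m + (2 * q : ℕ)) % 2 = m % 2 := by
      push_cast
      omega
    have h2 : χ (m + (2 * q : ℕ), n) = χ (m, n) := by
      refine hq _ _ ?_ ?_
      · refine ⟨2, ?_⟩
        push_cast
        ring
      · simp
    simp only [h1, h2]
  · intro m
    simp only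
    split_ifs
    · rw [norm_mul, norm_pow, norm_neg, norm_one, one_pow, mul_one]
      exact hχ _
    · rw [norm_zero]
      exact zero_le_one
  · intro m hm
    have hm' : |(m : ℝ)| < 2 * n := by exact_mod_cast hm
    have hw1 : 2.82 * (n : ℝ) < n * √8 := by nlinarith
    have hw2 : n * √8 < 2.83 * (n : ℝ) := by nlinarith
    have hm1 := neg_abs_le (m : ℝ)
    have hm2 := le_abs_self (m : ℝ)
    have hp1 : 0 < n * √8 + m := by linarith
    have hp2 : 0 < n * √8 - m := by linarith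
    refine ⟨?_, by linarith, by linarith, by linarith, ?_⟩
    · unfold CHX_g
      simp only
      split_ifs
      · obtain ⟨-, h2, -⟩ := CHB_nn2 (m, (n : ℤ)) hm
        have h3 := CHB_fac κ τ (m, (n : ℤ)) (by simp only [Int.cast_natCast]; linarith) (by simp only [Int.cast_natCast]; linarith)
        have h4 : χ (m, (n : ℤ)) * (((N8 (m, (n : ℤ))).sign : ℂ) ^ i * Complex.exp (κ * yy (m, (n : ℤ)) * Complex.I)) * nit τ (nn (m, (n : ℤ))) =
            χ (m, (n : ℤ)) * ((N8 (m, (n : ℤ))).sign : ℂ) ^ i * (Complex.exp (κ * yy (m, (n : ℤ)) * Complex.I) * nit τ (nn (m, (n : ℤ)))) := by ring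
        rw [h4, h3, Int.sign_eq_neg_one_of_neg h2]
        simp only [Int.cast_natCast, Int.cast_neg, Int.cast_one]
      · rw [zero_mul]
    · unfold yy
      simp only [Int.cast_natCast]
      have e1 : |(m : ℝ) + n * √8| = n * √8 + m := by
        rw [abs_of_pos (by linarith)]
        ring
      have e2 : |(m : ℝ) - n * √8| = n * √8 - m := by
        rw [abs_of_neg (by linarith)]
        ring
      rw [e1, e2]

/-- the rows of the first region -/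
theorem CHX_row1 (q : ℕ) (χ : ℤ × ℤ → ℂ) (hχ : ∀ z, ‖χ z‖ ≤ 1) (hq : CHX_P q χ) (i : ℕ) (κ τ : ℝ) (n : ℕ) (hn : 1 ≤ n) :
    ∃ (ψ : ℤ → ℂ) (w : ℝ), (∀ m, ψ (m + (2 * q : ℕ)) = ψ m) ∧ (∀ m, ‖ψ m‖ ≤ 1) ∧
      ∀ m : ℤ, 4 * |m| < (n : ℤ) → CHX_g χ i κ τ (n, m) = ψ m * (nit (κ + τ) |m + w| * nit (τ - κ) |m - w|) ∧ |(m : ℝ)| < w ∧
        (n : ℝ) ≤ 10 * (w - |(m : ℝ)|) ∧ 10 * (w + |(m : ℝ)|) ≤ 49 * n ∧ yy (n, m) = Real.log ((w + m) / (w - m)) := by
  obtain ⟨hs1, hs2⟩ := CHB_s8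
  have hs0 : 0 < √(8 : ℝ) := by linarith
  have hn0 : (1 : ℝ) ≤ n := by exact_mod_cast hn
  refine ⟨fun m => if (n : ℤ) % 2 = 1 then χ (n, m) * (nit (κ + τ) √8 * nit (τ - κ) √8) else 0, n / √8, ?_, ?_, ?_⟩
  · intro m
    have h2 : χ (n, m + (2 * q : ℕ)) = χ (n, m) := by
      refine hq _ _ ?_ ?_
      · simp
      · refine ⟨2, ?_⟩
        push_cast
        ring
    simp only [h2]
  · intro m
    simp only
    split_ifs
    · rw [norm_mul, norm_mul, CHB_norm_nit, CHB_norm_nit, mul_one, mul_one]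
      exact hχ _
    · rw [norm_zero]
      exact zero_le_one
  · intro m hm
    have hm' : 4 * |(m : ℝ)| < n := by exact_mod_cast hm
    obtain ⟨w, hw⟩ : ∃ w : ℝ, w = n / √8 := ⟨_, rfl⟩
    have hwn : (n : ℝ) = √8 * w := by
      rw [hw]
      field_simp
    have hw0 : 0 < w := by
      rw [hw]
      positivity
    have hw1 : (n : ℝ) ≤ 2.83 * w := by
      rw [hwn]
      nlinarith
    have hw2 : 2.82 * w ≤ n := by
      rw [hwn]
      nlinarith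
    have hm1 := neg_abs_le (m : ℝ)
    have hm2 := le_abs_self (m : ℝ)
    have hp1 : 0 < w + m := by linarith
    have hp2 : 0 < w - m := by linarith
    rw [← hw]
    have e1 : |(n : ℝ) + m * √8| = √8 * (w + m) := by
      have : (n : ℝ) + m * √8 = √8 * (w + m) := by
        rw [hwn]
        ring
      rw [this, abs_of_pos (by positivity)]
    have e2 : |(n : ℝ) - m * √8| = √8 * (w - m) := by
      have : (n : ℝ) - m * √8 = √8 * (w - m) := by
        rw [hwn]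
        ring
      rw [this, abs_of_pos (by positivity)]
    have e3 : |(m : ℝ) + w| = w + m := by
      rw [abs_of_pos (by linarith)]
      ring
    have e4 : |(m : ℝ) - w| = w - m := by
      rw [abs_of_neg (by linarith)]
      ring
    refine ⟨?_, by linarith, by linarith, by linarith, ?_⟩
    · unfold CHX_g
      simp only
      split_ifs
      · obtain ⟨-, h2, -⟩ := CHB_nn1 ((n : ℤ), m) hm
        have h3 := CHB_fac κ τ ((n : ℤ), m) (by
          simp only [Int.cast_natCast]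
          rw [← abs_pos, e1]
          positivity) (by
          simp only [Int.cast_natCast]
          rw [← abs_pos, e2]
          positivity)
        simp only [Int.cast_natCast] at h3
        have h4 : χ ((n : ℤ), m) * (((N8 ((n : ℤ), m)).sign : ℂ) ^ i * Complex.exp (κ * yy ((n : ℤ), m) * Complex.I)) * nit τ (nn ((n : ℤ), m)) =
            χ ((n : ℤ), m) * ((N8 ((n : ℤ), m)).sign : ℂ) ^ i * (Complex.exp (κ * yy ((n : ℤ), m) * Complex.I) * nit τ (nn ((n : ℤ), m))) := by ring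
        rw [h4, h3, Int.sign_eq_one_of_pos h2, e1, e2, e3, e4, CHB_nit_mul _ _ _ hs0 hp1, CHB_nit_mul _ _ _ hs0 hp2]
        simp only [Int.cast_one, one_pow]
        ring
      · rw [zero_mul]
    · unfold yy
      simp only [Int.cast_natCast]
      rw [e1, e2, mul_div_mul_left _ _ hs0.ne']

theorem CHX (hRWB : RWB_stmt) (hSCW : SCW_stmt) : CHX_stmt := by
  classical
  obtain ⟨C, hC0, hR⟩ := hRWB
  have hR' : CHB_RW C := hR
  obtain ⟨C₂, hC₂, hS⟩ := hSCW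
  intro A B K
  obtain ⟨U, hU, hpar⟩ := CHB_par A B K C C₂ hC0 hC₂
  refine ⟨Real.exp (U ^ 20), fun x hx d hd hdB ψ hψ1 hψ2 i κ τ hκ hτ v hv hv4 => ?_⟩
  have hx0 : 0 < x := (Real.exp_pos _).trans_le hx
  have hU0 : 0 < U := by linarith
  have hL : U ^ 20 ≤ Real.log x := (Real.le_log_iff_exp_le hx0).2 hx
  have hL0 : 0 < Real.log x := lt_of_lt_of_le (by positivity) hL
  obtain ⟨u, hu⟩ : ∃ u : ℝ, u = Real.log x ^ (1 / 20 : ℝ) := ⟨_, rfl⟩
  have hu0 : 0 < u := by rw [hu]; positivity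
  have huL : u ^ 20 = Real.log x := by
    rw [hu, ← Real.rpow_natCast, ← Real.rpow_mul hL0.le]
    norm_num
  have huU : U ≤ u := by
    by_contra h
    push Not at h
    have := pow_lt_pow_left₀ h hu0.le (n := 20) (by norm_num)
    linarith
  have hu144 : 144 ≤ u := hU.trans huU
  have hdl : CH.dl x = u ^ 19 := by
    unfold CH.dl
    rw [hu, ← Real.rpow_natCast (_ ^ _), ← Real.rpow_mul hL0.le]
    norm_num
  rw [hdl] at hv
  have hxe : x = Real.exp (u ^ 20) := by rw [huL, Real.exp_log hx0]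
  have hdB' : (d : ℝ) ≤ u ^ (20 * B) := by
    rw [pow_mul, huL]
    exact hdB
  rw [← huL]
  obtain ⟨p1, p2, p3, p4⟩ := hpar u huU
  have hK0 : (0 : ℝ) ≤ K := Nat.cast_nonneg _
  obtain ⟨l, hl⟩ : ∃ l : ℕ, l = ⌈6 * ((K : ℝ) + 1) * u⌉₊ := ⟨_, rfl⟩
  have hl2 : 6 * ((K : ℝ) + 1) * u ≤ l := by rw [hl]; exact Nat.le_ceil _
  have hl3 : (l : ℝ) ≤ 7 * (K + 1) * u := by
    have h1 : (l : ℝ) < 6 * ((K : ℝ) + 1) * u + 1 := by rw [hl]; exact Nat.ceil_lt_add_one (by positivity)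
    nlinarith
  have hl1 : 1 ≤ l := by
    have h1 : (0 : ℝ) < l := lt_of_lt_of_le (by positivity) hl2
    have h2 : 0 < l := by exact_mod_cast h1
    exact h2
  have hd1 : 1 ≤ d := hd
  have hψ3 : CHX_P d ψ := hψ2
  have hv0 : (0 : ℝ) < v := (Real.exp_pos _).trans_le hv
  have hv1 : 1 ≤ v := by
    have h2 : 0 < v := by exact_mod_cast hv0
    exact h2
  have hμ : max |κ + τ| |τ - κ| ≤ 2 * x ^ K := by
    apply max_le
    · have := abs_add_le κ τ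
      linarith
    · have := abs_sub τ κ
      linarith
  obtain ⟨η, hη⟩ : ∃ η : ℝ, η = 1 / u ^ (20 * (A + 2)) := ⟨_, rfl⟩
  have hη0 : 0 < η := by rw [hη]; positivity
  have hη2 : η ≤ 1 / 2 := by
    rw [hη]
    apply one_div_le_one_div_of_le (by norm_num)
    calc (2 : ℝ) ≤ u := by linarith
      _ = u ^ 1 := (pow_one u).symm
      _ ≤ u ^ (20 * (A + 2)) := pow_le_pow_right₀ (by linarith) (by omega)
  obtain ⟨n₀, hn₀⟩ : ∃ n₀ : ℝ, n₀ = √(v : ℝ) / u ^ (20 * (A + 1)) := ⟨_, rfl⟩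
  have hn₀0 : 0 ≤ n₀ := by rw [hn₀]; positivity
  have hN : ∀ n : ℕ, n₀ < n → (n : ℝ) ^ 2 ≤ 2 * v → ∃ N : ℕ, 1 ≤ N ∧ √(N : ℝ) ≤ max |κ + τ| |τ - κ| ∧ max |κ + τ| |τ - κ| ≤ (N : ℝ) ^ l ∧
      10 * (((2 * d : ℕ) : ℝ) * N) ≤ n ∧ 49 * (n : ℝ) ≤ 500 * (((2 * d : ℕ) : ℝ) * N) ∧
      ((2 * d : ℕ) : ℝ) * N * (Real.exp (C * (l : ℝ) ^ 3) * (N : ℝ) ^ (-(1 / (C * (l : ℝ) ^ 6))) / η) ≤ n * η := by
    intro n h1 h2
    rw [hη]
    rw [hn₀] at h1
    exact CHB_N A B K C hC0 x u _ d v l hd1 hu144 hxe hdB' hv p1 (p2 l hl1 hl3) hl1 hl2 hμ hv4 n h1 h2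
  obtain ⟨bad, hbad⟩ : ∃ bad : Finset (ℤ × ℤ), bad = (Icc 1 (5 * l)).biUnion fun jj : ℕ =>
      (FE v).filter fun z => |yy z - Real.log (|κ + τ| / |τ - κ|) / jj| ≤ 2 * η := ⟨_, rfl⟩
  have hbc : (bad.card : ℝ) ≤ 5 * l * (C₂ * (2 * η * v + √(v : ℝ))) := by
    have h1 : bad.card ≤ ∑ jj ∈ Icc 1 (5 * l), #((FE v).filter fun z => |yy z - Real.log (|κ + τ| / |τ - κ|) / jj| ≤ 2 * η) := by
      rw [hbad]
      exact card_biUnion_le
    have h2 : (bad.card : ℝ) ≤ ∑ jj ∈ Icc 1 (5 * l), (#((FE v).filter fun z => |yy z - Real.log (|κ + τ| / |τ - κ|) / jj| ≤ 2 * η) : ℝ) := by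
      exact_mod_cast h1
    refine h2.trans ?_
    refine le_trans (sum_le_sum (g := fun _ => C₂ * (2 * η * v + √(v : ℝ))) fun jj _ => ?_) ?_
    · refine le_trans ?_ (hS v (Real.log (|κ + τ| / |τ - κ|) / jj) (2 * η) hv1 (by positivity))
      exact le_rfl
    · rw [sum_const, nsmul_eq_mul, Nat.card_Icc, Nat.add_sub_cancel]
      push_cast
      exact le_rfl
  have hbm : ∀ z ∈ FE v, ∀ jj ∈ Icc 1 (5 * l), |yy z - Real.log (|κ + τ| / |τ - κ|) / jj| ≤ 2 * η → z ∈ bad := by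
    intro z hz jj hj h
    rw [hbad, mem_biUnion]
    exact ⟨jj, hj, mem_filter.2 ⟨hz, h⟩⟩
  obtain ⟨g, hg⟩ : ∃ g : ℤ × ℤ → ℂ, g = CHX_g ψ i κ τ := ⟨_, rfl⟩
  have hgn : ∀ z, ‖g z‖ ≤ 1 := by
    intro z
    rw [hg]
    exact CHX_g_norm ψ hψ1 i κ τ z
  have hreg2 : ∀ S : Finset (ℤ × ℤ), (∀ z ∈ S, |z.1| < 2 * z.2 ∧ z ∈ FE v) → (∀ n a b m : ℤ, (a, n) ∈ S → (b, n) ∈ S → a ≤ m → m ≤ b → (m, n) ∈ S) →
      ‖∑ z ∈ S, g z‖ ≤ 7 * n₀ ^ 2 + 2 * v * η + bad.card := by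
    intro S hS1 hS2
    refine CHB_cls C hR' v d l (κ + τ) (τ - κ) η η n₀ hl1 hd1 hη0 hη2 hη0.le hn₀0 hN S g Prod.snd Prod.fst (fun n m => (m, n))
      (fun _ => rfl) (fun _ _ => rfl) (fun _ _ => rfl) (fun z _ => hgn z) ?_ hS2 ?_ bad (fun z hz => hbm z (hS1 z hz).2)
    · intro z hz
      obtain ⟨h1, h2⟩ := hS1 z hz
      have h3 := (CHB_mem2 v z h1).1 h2
      have h4 := (CHB_nn2 z h1).2.2
      have h5 := abs_nonneg z.1
      refine ⟨by omega, ?_⟩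
      have h6 : 0 ≤ z.2 ^ 2 := sq_nonneg _
      omega
    · intro n hn
      obtain ⟨χ, w, h1, h2, h3⟩ := CHX_row2 d ψ hψ1 hψ3 i κ τ n hn
      refine ⟨χ, w, h1, h2, fun m hm => ?_⟩
      rw [hg]
      exact h3 m (hS1 _ hm).1
  have hreg1 : ∀ S : Finset (ℤ × ℤ), (∀ z ∈ S, 4 * |z.2| < z.1 ∧ z ∈ FE v) → (∀ n a b m : ℤ, (n, a) ∈ S → (n, b) ∈ S → a ≤ m → m ≤ b → (n, m) ∈ S) →
      ‖∑ z ∈ S, g z‖ ≤ 7 * n₀ ^ 2 + 2 * v * η + bad.card := by
    intro S hS1 hS2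
    refine CHB_cls C hR' v d l (κ + τ) (τ - κ) η η n₀ hl1 hd1 hη0 hη2 hη0.le hn₀0 hN S g Prod.fst Prod.snd (fun n m => (n, m))
      (fun _ => rfl) (fun _ _ => rfl) (fun _ _ => rfl) (fun z _ => hgn z) ?_ hS2 ?_ bad (fun z hz => hbm z (hS1 z hz).2)
    · intro z hz
      obtain ⟨h1, h2⟩ := hS1 z hz
      have h3 := (CHB_mem1 v z h1).1 h2
      have h4 := (CHB_nn1 z h1).2.2
      have h5 := abs_nonneg z.2
      refine ⟨by omega, ?_⟩
      omega
    · intro n hn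
      obtain ⟨χ, w, h1, h2, h3⟩ := CHX_row1 d ψ hψ1 hψ3 i κ τ n hn
      refine ⟨χ, w, h1, h2, fun m hm => ?_⟩
      rw [hg]
      exact h3 m (hS1 _ hm).1
  have hFF : FF v = (FE v).filter fun z => z.1 % 2 = 1 := by
    ext z
    unfold FF FE Bx Fd
    simp only [mem_filter, mem_product, mem_Icc]
    push_cast
    tauto
  have hsum : ∑ z ∈ FF v, ψ z * (((N8 z).sign : ℂ) ^ i * Complex.exp (κ * yy z * Complex.I)) * nit τ (nn z) = ∑ z ∈ FE v, g z := by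
    rw [hFF, sum_filter, hg]
    rfl
  rw [hsum]
  rw [← sum_filter_add_sum_filter_not (FE v) (fun z => |z.1| < 2 * z.2) g,
    ← sum_filter_add_sum_filter_not ((FE v).filter fun z => |z.1| < 2 * z.2) (fun z => 0 ≤ z.1) g,
    ← sum_filter_add_sum_filter_not ((FE v).filter fun z => ¬ |z.1| < 2 * z.2) (fun z => 0 ≤ z.2) g]
  have hm1 : ∀ z ∈ FE v, ¬ |z.1| < 2 * z.2 → 4 * |z.2| < z.1 := by
    intro z hz h
    unfold FE at hz
    rcases (mem_filter.1 hz).2.1 with h1 | h1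
    · exact h1
    · exact absurd h1 h
  have hA1 : ‖∑ z ∈ ((FE v).filter fun z => |z.1| < 2 * z.2).filter (fun z => 0 ≤ z.1), g z‖ ≤ 7 * n₀ ^ 2 + 2 * v * η + bad.card := by
    apply hreg2
    · intro z hz
      rw [mem_filter, mem_filter] at hz
      exact ⟨hz.1.2, hz.1.1⟩
    · intro n a b m ha hb h1 h2
      rw [mem_filter, mem_filter] at ha hb ⊢
      obtain ⟨⟨ha1, ha2⟩, ha3⟩ := ha
      obtain ⟨⟨hb1, hb2⟩, hb3⟩ := hb
      simp only at ha2 ha3 hb2 hb3 ⊢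
      have h3 : |m| < 2 * n := by
        rw [abs_lt] at hb2 ⊢
        omega
      refine ⟨⟨?_, h3⟩, by omega⟩
      rw [CHB_mem2 v _ h3]
      have h4 := (CHB_mem2 v (a, n) ha2).1 ha1
      simp only at h4 ⊢
      nlinarith
  have hA2 : ‖∑ z ∈ ((FE v).filter fun z => |z.1| < 2 * z.2).filter (fun z => ¬ 0 ≤ z.1), g z‖ ≤ 7 * n₀ ^ 2 + 2 * v * η + bad.card := by
    apply hreg2
    · intro z hz
      rw [mem_filter, mem_filter] at hz
      exact ⟨hz.1.2, hz.1.1⟩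
    · intro n a b m ha hb h1 h2
      rw [mem_filter, mem_filter] at ha hb ⊢
      obtain ⟨⟨ha1, ha2⟩, ha3⟩ := ha
      obtain ⟨⟨hb1, hb2⟩, hb3⟩ := hb
      simp only at ha2 ha3 hb2 hb3 ⊢
      have h3 : |m| < 2 * n := by
        rw [abs_lt] at ha2 ⊢
        omega
      refine ⟨⟨?_, h3⟩, by omega⟩
      rw [CHB_mem2 v _ h3]
      have h4 := (CHB_mem2 v (b, n) hb2).1 hb1
      simp only at h4 ⊢
      nlinarith
  have hA3 : ‖∑ z ∈ ((FE v).filter fun z => ¬ |z.1| < 2 * z.2).filter (fun z => 0 ≤ z.2), g z‖ ≤ 7 * n₀ ^ 2 + 2 * v * η + bad.card := by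
    apply hreg1
    · intro z hz
      rw [mem_filter, mem_filter] at hz
      exact ⟨hm1 z hz.1.1 hz.1.2, hz.1.1⟩
    · intro n a b m ha hb h1 h2
      rw [mem_filter, mem_filter] at ha hb ⊢
      obtain ⟨⟨ha1, ha2⟩, ha3⟩ := ha
      obtain ⟨⟨hb1, hb2⟩, hb3⟩ := hb
      have ha4 := hm1 _ ha1 ha2
      have hb4 := hm1 _ hb1 hb2
      simp only at ha2 ha3 hb2 hb3 ha4 hb4 ⊢
      have h3 : 4 * |m| < n := by
        rw [abs_of_nonneg ha3] at ha4
        rw [abs_of_nonneg hb3] at hb4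
        rw [abs_of_nonneg (by omega)]
        omega
      refine ⟨⟨?_, ?_⟩, by omega⟩
      · rw [CHB_mem1 v _ h3]
        have h4 := (CHB_mem1 v (n, a) ha4).1 ha1
        simp only at h4 ⊢
        nlinarith
      · have h5 := neg_abs_le n
        have h6 := le_abs_self n
        have h7 := abs_nonneg m
        have h8 := le_abs_self m
        omega
  have hA4 : ‖∑ z ∈ ((FE v).filter fun z => ¬ |z.1| < 2 * z.2).filter (fun z => ¬ 0 ≤ z.2), g z‖ ≤ 7 * n₀ ^ 2 + 2 * v * η + bad.card := by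
    apply hreg1
    · intro z hz
      rw [mem_filter, mem_filter] at hz
      exact ⟨hm1 z hz.1.1 hz.1.2, hz.1.1⟩
    · intro n a b m ha hb h1 h2
      rw [mem_filter, mem_filter] at ha hb ⊢
      obtain ⟨⟨ha1, ha2⟩, ha3⟩ := ha
      obtain ⟨⟨hb1, hb2⟩, hb3⟩ := hb
      have ha4 := hm1 _ ha1 ha2
      have hb4 := hm1 _ hb1 hb2
      simp only at ha2 ha3 hb2 hb3 ha4 hb4 ⊢
      have h3 : 4 * |m| < n := by
        rw [abs_of_neg (by omega)] at ha4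
        rw [abs_of_neg (by omega)]
        omega
      refine ⟨⟨?_, ?_⟩, by omega⟩
      · rw [CHB_mem1 v _ h3]
        have h4 := (CHB_mem1 v (n, b) hb4).1 hb1
        simp only at h4 ⊢
        nlinarith
      · have h5 := neg_abs_le n
        have h6 := le_abs_self n
        have h7 := abs_nonneg m
        have h8 := le_abs_self m
        omega
  have hT : 4 * (7 * n₀ ^ 2 + 2 * v * η + bad.card) ≤ v / (u ^ 20) ^ A := by
    rw [← pow_mul]
    obtain ⟨Q, hQ⟩ : ∃ Q : ℝ, Q = v / u ^ (20 * A) := ⟨_, rfl⟩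
    have hQ0 : 0 < Q := by rw [hQ]; positivity
    rw [← hQ]
    have hvη : v * η = Q / u ^ 40 := by
      rw [hη, hQ, mul_one_div, div_div, ← pow_add]
      congr 2
    have h1 : n₀ ^ 2 ≤ Q / u ^ 40 := by
      rw [hn₀, hQ, div_pow, Real.sq_sqrt hv0.le, div_div, ← pow_add, ← pow_mul]
      apply div_le_div_of_nonneg_left hv0.le (by positivity)
      exact pow_le_pow_right₀ (by linarith) (by omega)
    have h2 : 144 * (Q / u ^ 40) ≤ Q := by
      have h3 : (144 : ℝ) ≤ u ^ 40 := by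
        calc (144 : ℝ) ≤ u := hu144
          _ = u ^ 1 := (pow_one u).symm
          _ ≤ u ^ 40 := pow_le_pow_right₀ (by linarith) (by norm_num)
      rw [mul_div_assoc', div_le_iff₀ (by positivity)]
      nlinarith
    have h3 : 1120 * (K + 1) * C₂ * u * (Q / u ^ 40) ≤ Q := by
      rw [mul_div_assoc', div_le_iff₀ (by positivity)]
      nlinarith
    have hsv : Real.exp (u ^ 19 / 2) ≤ √(v : ℝ) := by
      apply Real.le_sqrt_of_sq_le
      rw [← Real.exp_nat_mul]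
      refine le_trans (le_of_eq ?_) hv
      congr 1
      push_cast
      ring
    have h4 : 560 * (K + 1) * C₂ * u * √(v : ℝ) ≤ Q := by
      rw [hQ, le_div_iff₀ (by positivity)]
      have h5 : 560 * (K + 1) * C₂ * u * u ^ (20 * A) ≤ √(v : ℝ) := p4.trans hsv
      calc 560 * (K + 1) * C₂ * u * √(v : ℝ) * u ^ (20 * A) = 560 * (K + 1) * C₂ * u * u ^ (20 * A) * √(v : ℝ) := by ring
        _ ≤ √(v : ℝ) * √(v : ℝ) := by gcongr
        _ = v := Real.mul_self_sqrt hv0.le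
    have h5 : (bad.card : ℝ) ≤ 5 * (7 * (K + 1) * u) * (C₂ * (2 * (Q / u ^ 40) + √(v : ℝ))) := by
      refine hbc.trans ?_
      have e : 2 * η * v = 2 * (Q / u ^ 40) := by rw [← hvη]; ring
      rw [e]
      gcongr
    have e2 : 5 * (7 * ((K : ℝ) + 1) * u) * (C₂ * (2 * (Q / u ^ 40) + √(v : ℝ))) =
        (1120 * (K + 1) * C₂ * u * (Q / u ^ 40)) / 16 + (560 * (K + 1) * C₂ * u * √(v : ℝ)) / 16 := by ring
    rw [e2] at h5
    have e3 : 2 * (v : ℝ) * η = 2 * (Q / u ^ 40) := by rw [← hvη]; ring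
    rw [e3]
    linarith
  refine le_trans ?_ hT
  refine le_trans (norm_add_le _ _) ?_
  have h1 := norm_add_le (∑ z ∈ ((FE v).filter fun z => |z.1| < 2 * z.2).filter (fun z => 0 ≤ z.1), g z)
    (∑ z ∈ ((FE v).filter fun z => |z.1| < 2 * z.2).filter (fun z => ¬ 0 ≤ z.1), g z)
  have h2 := norm_add_le (∑ z ∈ ((FE v).filter fun z => ¬ |z.1| < 2 * z.2).filter (fun z => 0 ≤ z.2), g z)
    (∑ z ∈ ((FE v).filter fun z => ¬ |z.1| < 2 * z.2).filter (fun z => ¬ 0 ≤ z.2), g z)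
  linarith

end Pool.Agent.YB
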