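import Pool.Agent.helper36.YB.Spec

/-!
# Row `yb:RPX` (MP_ad8ced_nt): the principal character
-/

set_option autoImplicit false

open Finset
open Pool.Agent.FI Pool.Agent.HK Pool.Agent.BP
open Pool.Agent.CH (nit rgh ll2)
open Pool.Agent.SK (tr0 Th)

noncomputable section

namespace Pool.Agent.YB

private theorem RPX_nn_mul (z w : ℤ × ℤ) : nn (mul8 z w) = nn z * nn w := by
  unfold nn
  rw [← Int.natAbs_mul]
  congr 1
  unfold N8 mul8
  simp only
  ring

private theorem RPX_nn_cj (z : ℤ × ℤ) : nn (cj z) = nn z := by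
  unfold nn
  congr 1
  unfold N8 cj
  simp only
  ring

private theorem RPX_nn_int (t : ℕ) : nn ((t : ℤ), 0) = t ^ 2 := by
  unfold nn N8
  simp only
  have e : ((t : ℤ) ^ 2 - 8 * 0 ^ 2) = ((t ^ 2 : ℕ) : ℤ) := by
    push_cast
    ring
  rw [e, Int.natAbs_natCast]

private theorem RPX_I1 (q : ℕ) : UX q (I1 q) := by
  refine ⟨?_, ?_, ?_, ?_⟩
  · intro z w _ _
    unfold I1
    rw [RPX_nn_mul]
    by_cases h1 : Nat.Coprime (nn z) q
    · by_cases h2 : Nat.Coprime (nn w) q
      · rw [if_pos (Nat.Coprime.mul_left h1 h2), if_pos h1, if_pos h2, one_mul]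
      · rw [if_neg (fun h => h2 (Nat.coprime_mul_iff_left.1 h).2), if_neg h2, mul_zero]
    · rw [if_neg (fun h => h1 (Nat.coprime_mul_iff_left.1 h).1), if_neg h1, zero_mul]
  · intro u hu
    unfold I1
    rw [if_pos]
    have : nn u = 1 := by unfold nn; rw [hu]; rfl
    rw [this]
    exact Nat.coprime_one_left q
  · intro z _ h
    unfold I1
    rw [if_neg h]
  · intro z _ h
    unfold I1
    rw [if_pos h, norm_one]

private theorem RPX_pi (hTHU : THU_stmt) (p : ℕ) (hp : p.Prime) (h8 : p % 8 = 1 ∨ p % 8 = 7) :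
    ∃ z : ℤ × ℤ, nn z = p := by
  have : Fact p.Prime := ⟨hp⟩
  have hp2 : p ≠ 2 := by omega
  obtain ⟨s, hs⟩ := (ZMod.exists_sq_eq_two_iff hp2).2 h8
  have hodd : Odd p := hp.odd_of_ne_two hp2
  obtain ⟨z, hz, -⟩ := hTHU p (2 * (s.val : ℤ)) hodd (by
    rw [← ZMod.intCast_zmod_eq_zero_iff_dvd]
    push_cast
    rw [ZMod.natCast_zmod_val]
    have e : (2 * s) ^ 2 - 8 = 4 * (s * s - 2) := by ring
    rw [e, ← hs, sub_self, mul_zero])
  exact ⟨z, hz⟩

private theorem RPX_ch8_mul (a b : ℕ) : ch8 (a * b) = ch8 a * ch8 b := by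
  have ha : a % 8 < 8 := Nat.mod_lt _ (by norm_num)
  have hb : b % 8 < 8 := Nat.mod_lt _ (by norm_num)
  unfold ch8
  rw [Nat.mul_mod]
  generalize a % 8 = x at ha ⊢
  generalize b % 8 = y at hb ⊢
  interval_cases x <;> interval_cases y <;> norm_num

private theorem RPX_ch8_abs (a : ℕ) : |ch8 a| ≤ 1 := by
  unfold ch8
  split_ifs <;> norm_num

private theorem RPX_c0 (q : ℕ) (hq : 2 ∣ q) : ¬ Nat.Coprime 0 q := by
  intro h
  have h1 : q = 1 := by simpa using h
  omega

private theorem RPX_CM1 (q : ℕ) (hq : 2 ∣ q) : CM (e1 q) := by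
  refine ⟨?_, ?_, ?_, ?_⟩
  · unfold e1
    rw [if_neg (RPX_c0 q hq)]
  · unfold e1
    rw [if_pos (Nat.coprime_one_left q)]
  · intro m n
    unfold e1
    by_cases h1 : Nat.Coprime m q
    · by_cases h2 : Nat.Coprime n q
      · rw [if_pos (Nat.Coprime.mul_left h1 h2), if_pos h1, if_pos h2, one_mul]
      · rw [if_neg (fun h => h2 (Nat.coprime_mul_iff_left.1 h).2), if_neg h2, mul_zero]
    · rw [if_neg (fun h => h1 (Nat.coprime_mul_iff_left.1 h).1), if_neg h1, zero_mul]
  · intro n
    unfold e1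
    split_ifs
    · rw [norm_one]
    · rw [norm_zero]
      exact zero_le_one

private theorem RPX_CM8 (q : ℕ) (hq : 2 ∣ q) : CM (e8 q) := by
  refine ⟨?_, ?_, ?_, ?_⟩
  · unfold e8
    rw [if_neg (RPX_c0 q hq)]
  · unfold e8
    rw [if_pos (Nat.coprime_one_left q)]
    unfold c8 ch8
    norm_num
  · intro m n
    unfold e8
    by_cases h1 : Nat.Coprime m q
    · by_cases h2 : Nat.Coprime n q
      · rw [if_pos (Nat.Coprime.mul_left h1 h2), if_pos h1, if_pos h2]
        unfold c8
        rw [RPX_ch8_mul]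
        push_cast
        rfl
      · rw [if_neg (fun h => h2 (Nat.coprime_mul_iff_left.1 h).2), if_neg h2, mul_zero]
    · rw [if_neg (fun h => h1 (Nat.coprime_mul_iff_left.1 h).1), if_neg h1, zero_mul]
  · intro n
    unfold e8
    split_ifs
    · unfold c8
      rw [Complex.norm_real, Real.norm_eq_abs]
      exact RPX_ch8_abs n
    · rw [norm_zero]
      exact zero_le_one

theorem RPX (hRSX : RSX_stmt) (hRIX : RIX_stmt) (hCVR : CVR_stmt) (hTHU : THU_stmt) : RPX_stmt := by
  classical
  intro q hq hq0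
  have hU := RPX_I1 q
  have c1 := RPX_CM1 q hq
  have c8' := RPX_CM8 q hq
  refine ⟨hU, c1, c8', ?_⟩
  have hMU : MU (I1 q) := ⟨hU.1, hU.2.1⟩
  intro n
  induction n using Nat.strong_induction_on with
  | _ n ih =>
    intro hn
    rcases Nat.lt_or_ge 1 n with h1 | h1
    · have hp := Nat.minFac_prime (show n ≠ 1 by omega)
      obtain ⟨p, hpd⟩ : ∃ p : ℕ, p = n.minFac := ⟨_, rfl⟩
      rw [← hpd] at hp
      obtain ⟨m, hm⟩ : p ∣ n := hpd ▸ Nat.minFac_dvd n
      have hm1 : 1 ≤ m := by
        rcases Nat.eq_zero_or_pos m with h | h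
        · rw [h, mul_zero] at hm; omega
        · exact h
      have hmn : m < n := by
        rw [hm]
        have := hp.two_le
        nlinarith
      have hif : (if p ∣ m then rf (I1 q) (m / p) else 0) = if p ∣ m then cv (e1 q) (e8 q) (m / p) else 0 := by
        split_ifs with hdv
        · apply ih (m / p) (lt_of_le_of_lt (Nat.div_le_self _ _) hmn)
          exact Nat.div_pos (Nat.le_of_dvd hm1 hdv) hp.pos
        · rfl
      rw [hm, hCVR (e1 q) (e8 q) c1 c8' p m hp hm1, ← ih m hmn hm1, ← hif]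
      by_cases hr : p ∣ q
      · have hnc : ¬ Nat.Coprime p q := fun h => by
          have h2 := (Nat.Prime.coprime_iff_not_dvd hp).1 h
          exact h2 hr
        have v1 : e1 q p = 0 := by unfold e1; rw [if_neg hnc]
        have v8 : e8 q p = 0 := by unfold e8; rw [if_neg hnc]
        rw [((hRIX q (I1 q) hU).2 p m hp hm1).1 (Or.inr hr), v1, v8]
        ring
      · have hc : Nat.Coprime p q := (Nat.Prime.coprime_iff_not_dvd hp).2 hr
        have hp2 : p ≠ 2 := fun h => hr (h ▸ hq)
        have hodd : p % 2 = 1 := hp.eq_two_or_odd.resolve_left hp2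
        have v1 : e1 q p = 1 := by unfold e1; rw [if_pos hc]
        have v8 : e8 q p = c8 p := by unfold e8; rw [if_pos hc]
        have vp : I1 q ((p : ℤ), 0) = 1 := by
          unfold I1
          rw [if_pos]
          rw [RPX_nn_int]
          exact Nat.Coprime.pow_left 2 hc
        by_cases h8 : p % 8 = 1 ∨ p % 8 = 7
        · obtain ⟨π, hπ⟩ := RPX_pi hTHU p hp h8
          have w1 : I1 q π = 1 := by
            unfold I1
            rw [if_pos]
            rw [hπ]
            exact hc
          have w2 : I1 q (cj π) = 1 := by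
            unfold I1
            rw [if_pos]
            rw [RPX_nn_cj, hπ]
            exact hc
          have hc8 : c8 p = 1 := by
            unfold c8 ch8
            rw [if_pos h8]
            norm_num
          rw [hRSX (I1 q) hMU p π hp hp2 hπ m hm1, w1, w2, v1, v8, hc8, vp]
          split_ifs <;> ring
        · have h8' : p % 8 = 3 ∨ p % 8 = 5 := by omega
          have hc8 : c8 p = -1 := by
            unfold c8 ch8
            rw [if_neg h8, if_pos h8']
            norm_num
          rw [((hRIX q (I1 q) hU).2 p m hp hm1).2 h8', v1, v8, hc8, vp]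
          split_ifs <;> ring
    · have h2 : n = 1 := by omega
      subst h2
      rw [(hRIX q (I1 q) hU).1]
      unfold cv
      rw [Nat.divisorsAntidiagonal_one, sum_singleton, c1.2.1, c8'.2.1, one_mul]

end Pool.Agent.YB
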